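import Pool.Agent.H348Z.OM.Main

set_option autoImplicit false

open Filter Topology

namespace Pool.Agent.Results.MP_075e78_co.AlmostAll

open Pool.Agent.H348Z.OM

/-- There is an absolute constant `C` such that, for every `k ≥ 2`, the proportion of the ordered
matchings on `n = 2 M` vertices with interval chromatic number `k` whose ordered Ramsey number against
the triangle is at most `C n^(3/2) log n` tends to `1`. -/
theorem result : ∃ C : ℝ, ∀ k : ℕ, 2 ≤ k → Tendsto (fun M : ℕ =>
    (({G | G ∈ matchings (2 * M) k ∧ (ordRamsey G (⊤ : SimpleGraph (Fin 3)) : ℝ) ≤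
      C * ((2 * M : ℕ) : ℝ) ^ (3 / 2 : ℝ) * Real.log ((2 * M : ℕ) : ℝ)}.ncard : ℝ) /
      ((matchings (2 * M) k).ncard : ℝ))) atTop (𝓝 1) :=
  main

end Pool.Agent.Results.MP_075e78_co.AlmostAll
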